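import Pool.Agent.H3MT.Final

/-!
# MP_02726b_an: regular graphs of large girth as local test spaces for superreflexivity

There are finite connected 4-regular graphs `G n` of girth `> n` which embed, at every vertex and at
all scales `≤ n` simultaneously, with distortion at most `17` into every Banach space that is not
superreflexive.
-/

open Pool.Agent.H3MT

namespace Pool.Agent.Results.MP_02726b_an.LocalTestSpace

/-- There are finite connected `4`-regular graphs `G n` of girth `> n` such that for every Banach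
space `X` which is not superreflexive and every `n` there is a map `f` of `G n` into `X` with
`‖f u - f v‖ ≤ 17 d(u, v)` for all `u, v` and `d(u, v) ≤ ‖f u - f v‖` whenever `d(u, v) ≤ n`. -/
theorem result :
    ∃ (N : ℕ → ℕ) (G : ∀ n, SimpleGraph (Fin (N n))),
      (∀ n, (G n).Connected) ∧
      (∀ n v, ((G n).neighborSet v).ncard = 4) ∧
      (∀ n : ℕ, (n : ℕ∞) < (G n).egirth) ∧
      ∀ (X : Type) [NormedAddCommGroup X] [NormedSpace ℝ X] [CompleteSpace X],
        ¬ Superreflexive X →
          ∀ n : ℕ, ∃ f : Fin (N n) → X,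
            (∀ u v, ‖f u - f v‖ ≤ 17 * ((G n).dist u v : ℝ)) ∧
            ∀ u v, (G n).dist u v ≤ n → ((G n).dist u v : ℝ) ≤ ‖f u - f v‖ := by
  have key : ∀ n : ℕ, ∃ (M : ℕ) (G : SimpleGraph (Fin M)), G.Connected ∧
      (∀ v, (G.neighborSet v).ncard = 4) ∧ ((n : ℕ∞) < G.egirth) ∧
      ∀ (X : Type) [NormedAddCommGroup X] [NormedSpace ℝ X], ¬ Superreflexive X →
        ∃ f : Fin M → X, (∀ u v, ‖f u - f v‖ ≤ 17 * (G.dist u v : ℝ)) ∧
          ∀ u v, G.dist u v ≤ n → (G.dist u v : ℝ) ≤ ‖f u - f v‖ := by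
    intro n
    obtain ⟨H, _, _, s, hgen, hs, hX⟩ := Final.groups (n + 4)
    obtain ⟨M, G, e, h1, h2, h3, h4, h5⟩ := Cayley.cayley H s hgen (n + 4) (by omega) hs
    refine ⟨M, G, h1, h2, lt_of_le_of_lt ?_ h3, ?_⟩
    · exact_mod_cast Nat.le_add_right n 4
    · intro X _ _ hnX
      obtain ⟨F, hF1, hF2⟩ := hX X hnX
      refine ⟨fun v => F (e v), ?_, ?_⟩
      · refine Final.lip_of_adj G h1 _ 17 fun u v huv => ?_
        obtain ⟨i, hi | hi⟩ := h4 u v huv
        · rw [hi, norm_sub_rev]
          exact hF1 i (e u)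
        · rw [hi]
          exact hF1 i (e v)
      · intro u v huv
        obtain ⟨g, hg1, hg2⟩ := h5 u v
        beta_reduce
        rw [← hg1, hg2, norm_sub_rev]
        exact hF2 g (e u) (by omega)
  choose N G h1 h2 h3 h4 using key
  exact ⟨N, G, h1, h2, h3, fun X _ _ _ hX n => h4 n X hX⟩

end Pool.Agent.Results.MP_02726b_an.LocalTestSpace
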