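import Pool.Agent.H3MT.Final

/-!
# MP_02726b_an: nontrivial Markov type implies superreflexivity
-/

open Pool.Agent.H3MT

namespace Pool.Agent.Results.MP_02726b_an.NontrivialMarkovType

/-- Every Banach space which has Markov type `p` (in the sense of K. Ball) for some `p > 1` is
superreflexive. -/
theorem result (X : Type) [NormedAddCommGroup X] [NormedSpace ℝ X] [CompleteSpace X] (p : ℝ)
    (hp : 1 < p) (hX : MarkovType p X) : Superreflexive X := by
  by_contra hn
  refine Markov.not_markovType X 17 ?_ p hp hX
  intro N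
  obtain ⟨H, hH1, hH2, s, _, _, hF⟩ := Final.groups N
  obtain ⟨F, hF1, hF2⟩ := hF X hn
  exact ⟨H, hH1, hH2, s, F, hF1, hF2⟩

end Pool.Agent.Results.MP_02726b_an.NontrivialMarkovType
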